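import Pool.Agent.W770.KP.Stm

/-! KP-L2: from the chart version to all directions. -/

set_option autoImplicit false

open scoped Classical

namespace Pool.Agent.W863.KP

open Pool.Agent.W770.KP

theorem cnt_smul {F E : Type} [Field F] [Fintype F] [AddCommGroup E] [Module F E]
    (P : Finset (E × Submodule F E)) (b u : E) (l : F) (hl : l ≠ 0) :
    cnt P b (l • u) = cnt P b u := by
  unfold cnt
  apply Finset.card_bij (fun t _ => t * l)
  · intro t ht
    simp only [Finset.mem_filter, Finset.mem_univ, true_and] at ht ⊢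
    obtain ⟨p, hp, h⟩ := ht
    exact ⟨p, hp, by rwa [mul_smul]⟩
  · intro t1 _ t2 _ h
    exact mul_right_cancel₀ hl h
  · intro s hs
    simp only [Finset.mem_filter, Finset.mem_univ, true_and] at hs
    obtain ⟨p, hp, h⟩ := hs
    refine ⟨s / l, ?_, div_mul_cancel₀ s hl⟩
    simp only [Finset.mem_filter, Finset.mem_univ, true_and]
    refine ⟨p, hp, ?_⟩
    rw [← mul_smul, div_mul_cancel₀ s hl]; exact h

theorem cnt_map {F E E' : Type} [Field F] [Fintype F] [AddCommGroup E] [Module F E]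
    [AddCommGroup E'] [Module F E'] [DecidableEq (E' × Submodule F E')]
    (ψ : E ≃ₗ[F] E') (P : Finset (E × Submodule F E)) (b u : E) :
    cnt (P.image (fun p => (ψ p.1, p.2.map ψ.toLinearMap))) (ψ b) (ψ u) = cnt P b u := by
  unfold cnt
  congr 1
  ext t
  simp only [Finset.mem_filter, Finset.mem_univ, true_and, Finset.mem_image]
  constructor
  · rintro ⟨_, ⟨p, hp, rfl⟩, h⟩
    refine ⟨p, hp, ?_⟩
    have h' : ψ (b + t • u - p.1) ∈ p.2.map ψ.toLinearMap := by
      rw [map_sub, map_add, map_smul]; exact h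
    obtain ⟨z, hz, hz'⟩ := h'
    have : z = b + t • u - p.1 := ψ.injective hz'
    rwa [← this]
  · rintro ⟨p, hp, h⟩
    refine ⟨_, ⟨p, hp, rfl⟩, ?_⟩
    have : ψ b + t • ψ u - ψ p.1 = ψ (b + t • u - p.1) := by
      rw [map_sub, map_add, map_smul]
    show ψ b + t • ψ u - ψ p.1 ∈ p.2.map ψ.toLinearMap
    rw [this]
    exact ⟨_, h, rfl⟩

theorem sum_le_of_cover {α β : Type} (s : Finset β) (T : Finset α) (f : α → β) (g : β → ℝ)
    (hg : ∀ v, 0 ≤ g v) (hs : ∀ v ∈ s, ∃ a ∈ T, f a = v) :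
    ∑ v ∈ s, g v ≤ ∑ a ∈ T, g (f a) := by
  calc ∑ v ∈ s, g v ≤ ∑ v ∈ s, ∑ a ∈ T with f a = v, g (f a) := by
        apply Finset.sum_le_sum
        intro v hv
        obtain ⟨a, ha, rfl⟩ := hs v hv
        exact Finset.single_le_sum (f := fun a => g (f a)) (fun i _ => hg _)
          (Finset.mem_filter.2 ⟨ha, rfl⟩)
    _ ≤ ∑ a ∈ T, g (f a) :=
        Finset.sum_fiberwise_le_sum_of_sum_fiber_nonneg
          (fun y _ => Finset.sum_nonneg (fun i _ => hg _))

theorem l2 : S_L2 := by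
  intro m k
  rintro ⟨C, hC, h⟩
  refine ⟨(m + 1) * C, by positivity, ?_⟩
  intro F E _ _ _ _ _ hfin P hP b
  have hfd : FiniteDimensional F E := Module.Finite.of_finite
  obtain ⟨ψ⟩ : Nonempty (E ≃ₗ[F] (Fin (m+1) → F)) :=
    FiniteDimensional.nonempty_linearEquiv_of_finrank_eq (by simp [hfin])
  let Ψ : Fin (m+1) → (E ≃ₗ[F] (Fin (m+1) → F)) :=
    fun i => ψ.trans (LinearEquiv.funCongrLeft F F (Equiv.swap 0 i))
  have hΨ : ∀ i v, Ψ i v 0 = ψ v i := by
    intro i v
    simp [Ψ, LinearEquiv.funCongrLeft, LinearMap.funLeft]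
  let S : Finset F := Finset.univ.filter (fun l : F => l ≠ 0)
  let T : Finset (Fin (m+1) × F × (Fin m → F)) := Finset.univ ×ˢ S ×ˢ Finset.univ
  let f : Fin (m+1) × F × (Fin m → F) → E :=
    fun a => (Ψ a.1).symm (a.2.1 • (Fin.cons 1 a.2.2 : Fin (m+1) → F))
  let g : E → ℝ := fun v => ((cnt P (b v) v : ℕ) : ℝ) ^ (m + 1 - k)
  have step1 : ∑ v ∈ (Finset.univ : Finset E).filter (fun v => v ≠ 0), g v
      ≤ ∑ a ∈ T, g (f a) := by
    apply sum_le_of_cover
    · intro v; positivity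
    · intro v hv
      have hv0 : v ≠ 0 := (Finset.mem_filter.1 hv).2
      have hψv : ψ v ≠ 0 := by
        intro hc
        exact hv0 ((LinearEquiv.map_eq_zero_iff ψ).1 hc)
      obtain ⟨i, hi⟩ := Function.ne_iff.1 hψv
      have hi' : Ψ i v 0 ≠ 0 := by rw [hΨ]; exact hi
      refine ⟨(i, Ψ i v 0, fun j => Ψ i v j.succ / Ψ i v 0), ?_, ?_⟩
      · simp only [T, S, Finset.mem_product, Finset.mem_univ, true_and, and_true,
          Finset.mem_filter]
        exact hi'
      · show (Ψ i).symm _ = v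
        rw [LinearEquiv.symm_apply_eq]
        funext j
        refine Fin.cases ?_ (fun j => ?_) j
        · simp
        · simp only [Pi.smul_apply, Fin.cons_succ, smul_eq_mul]
          exact mul_div_cancel₀ _ hi'
  have step2 : ∀ i : Fin (m+1), ∀ l ∈ S, ∑ y : Fin m → F, g (f (i, l, y))
      ≤ C * (P.card : ℝ) * (Fintype.card F : ℝ) ^ m := by
    intro i l hl
    have hl0 : l ≠ 0 := (Finset.mem_filter.1 hl).2
    have hk := h F (P.image (fun p => (Ψ i p.1, p.2.map (Ψ i).toLinearMap))) (by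
      intro p hp
      obtain ⟨p', hp', rfl⟩ := Finset.mem_image.1 hp
      show Module.finrank F (p'.2.map (Ψ i).toLinearMap) = k
      rw [← hP p' hp']
      exact LinearEquiv.finrank_map_eq (Ψ i) p'.2)
      (fun y => Ψ i (b (f (i, l, y))))
    have e1 : ∀ y : Fin m → F, g (f (i, l, y)) =
        ((cnt (P.image (fun p => (Ψ i p.1, p.2.map (Ψ i).toLinearMap)))
          (Ψ i (b (f (i, l, y)))) (Fin.cons 1 y : Fin (m+1) → F) : ℕ) : ℝ) ^ (m + 1 - k) := by
      intro y
      have e2 := cnt_map (Ψ i) P (b (f (i, l, y))) ((Ψ i).symm (Fin.cons 1 y))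
      rw [LinearEquiv.apply_symm_apply] at e2
      rw [e2]
      have e3 : cnt P (b (f (i, l, y))) (f (i, l, y))
          = cnt P (b (f (i, l, y))) ((Ψ i).symm (Fin.cons 1 y)) := by
        have e4 : f (i, l, y) = l • (Ψ i).symm (Fin.cons 1 y) := by
          show (Ψ i).symm (l • (Fin.cons 1 y : Fin (m+1) → F)) = _
          rw [map_smul]
        conv_lhs => rw [show cnt P (b (f (i, l, y))) (f (i, l, y))
          = cnt P (b (f (i, l, y))) (l • (Ψ i).symm (Fin.cons 1 y)) by rw [← e4]]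
        exact cnt_smul P _ _ l hl0
      show ((cnt P (b (f (i, l, y))) (f (i, l, y)) : ℕ) : ℝ) ^ (m + 1 - k) = _
      rw [e3]
    rw [Finset.sum_congr rfl (fun y _ => e1 y)]
    refine hk.trans ?_
    have hc : ((P.image (fun p => (Ψ i p.1, p.2.map (Ψ i).toLinearMap))).card : ℝ)
        ≤ (P.card : ℝ) := by
      exact_mod_cast Finset.card_image_le
    gcongr
  have step3 : ∑ a ∈ T, g (f a) = ∑ i : Fin (m+1), ∑ l ∈ S, ∑ y : Fin m → F, g (f (i, l, y)) := by
    rw [Finset.sum_product]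
    apply Finset.sum_congr rfl
    intro i _
    rw [Finset.sum_product]
  refine step1.trans ?_
  rw [step3]
  have hScard : (S.card : ℝ) ≤ (Fintype.card F : ℝ) := by
    exact_mod_cast Finset.card_le_univ S
  calc ∑ i : Fin (m+1), ∑ l ∈ S, ∑ y : Fin m → F, g (f (i, l, y))
      ≤ ∑ i : Fin (m+1), ∑ l ∈ S, C * (P.card : ℝ) * (Fintype.card F : ℝ) ^ m :=
        Finset.sum_le_sum (fun i _ => Finset.sum_le_sum (fun l hl => step2 i l hl))
    _ = (m + 1) * ((S.card : ℝ) * (C * (P.card : ℝ) * (Fintype.card F : ℝ) ^ m)) := by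
        rw [Finset.sum_const, Finset.sum_const, Finset.card_univ, Fintype.card_fin]
        simp only [nsmul_eq_mul]
        push_cast
        ring
    _ ≤ (m + 1) * ((Fintype.card F : ℝ) * (C * (P.card : ℝ) * (Fintype.card F : ℝ) ^ m)) := by
        gcongr
    _ = (m + 1) * C * (P.card : ℝ) * (Fintype.card F : ℝ) ^ (m + 1) := by ring

end Pool.Agent.W863.KP
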